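import Pool.Agent.H23.GW.Targets

/-!
Module GF of the GW project (MP_684e05_nt).
-/

set_option autoImplicit false

open Finset PowerSeries
open scoped Classical

namespace Pool.Agent.H27.GW

open Pool.Agent.H23.GW

lemma mem_ball {ι : Type} [Fintype ι] {n : ℕ} {c : ι → ℤ} :
    c ∈ ball ι n ↔ ∑ i, (c i).natAbs ≤ n := by
  have h0 : ∑ i, |c i| = ((∑ i, (c i).natAbs : ℕ) : ℤ) := by
    rw [Nat.cast_sum]
    exact Finset.sum_congr rfl fun i _ => by simp
  rw [ball, Finset.mem_filter, h0, Nat.cast_le]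
  refine ⟨fun h => h.2, fun h => ⟨?_, h⟩⟩
  rw [Fintype.mem_piFinset]
  intro i
  have h1 : (c i).natAbs ≤ ∑ i, (c i).natAbs :=
    Finset.single_le_sum (f := fun i => (c i).natAbs) (fun _ _ => Nat.zero_le _)
      (Finset.mem_univ i)
  rw [Finset.mem_Icc]
  omega

section

variable {R : Type} [CommRing R]

/-- the integers of absolute value `p` -/
def sg (p : ℕ) : Finset ℤ := {(p : ℤ), -(p : ℤ)}

lemma mem_sg {p : ℕ} {t : ℤ} : t ∈ sg p ↔ t.natAbs = p := by
  rw [sg, Finset.mem_insert, Finset.mem_singleton]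
  omega

/-- the generating function of one coordinate -/
noncomputable def F (u : Rˣ) : PowerSeries R :=
  PowerSeries.mk fun p => ∑ t ∈ sg p, ((u ^ t : Rˣ) : R)

/-- the geometric series -/
noncomputable def Gs (x : R) : PowerSeries R := PowerSeries.mk fun p => x ^ p

lemma gs_mul (x : R) : (1 - C x * X) * Gs x = 1 := by
  ext n
  rw [sub_mul, one_mul, map_sub, mul_assoc, coeff_C_mul]
  rcases n with _ | n
  · simp [Gs]
  · rw [coeff_succ_X_mul, Gs, coeff_mk, coeff_mk, coeff_one, if_neg (Nat.succ_ne_zero n)]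
    ring

lemma F_eq (u : Rˣ) : F u = Gs (u : R) + Gs ((u⁻¹ : Rˣ) : R) - 1 := by
  ext p
  rw [map_sub, map_add, F, Gs, Gs, coeff_mk, coeff_mk, coeff_mk, coeff_one, sg]
  rcases p with _ | p
  · simp
  · rw [Finset.sum_pair (by push_cast; omega), if_neg (Nat.succ_ne_zero p)]
    rw [zpow_natCast, zpow_neg, zpow_natCast, ← inv_pow]
    push_cast
    ring

lemma F_eq' (u : Rˣ) : F u = (1 - X ^ 2) * Gs (u : R) * Gs ((u⁻¹ : Rˣ) : R) := by
  rw [F_eq]
  have h1 := gs_mul (u : R)
  have h2 := gs_mul ((u⁻¹ : Rˣ) : R)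
  have h3 : (C (u : R) : PowerSeries R) * C ((u⁻¹ : Rˣ) : R) = 1 := by
    rw [← map_mul, Units.mul_inv, map_one]
  linear_combination (-Gs ((u⁻¹ : Rˣ) : R)) * h1 - (Gs (u : R)) * h2 +
    (1 - C ((u⁻¹ : Rˣ) : R) * X) * Gs ((u⁻¹ : Rˣ) : R) * h1 + h2 -
    X ^ 2 * Gs (u : R) * Gs ((u⁻¹ : Rˣ) : R) * h3

/-- `θ f = X f'` -/
noncomputable def th (f : PowerSeries R) : PowerSeries R := X * derivative R f

lemma th_mul {f g a b : PowerSeries R} (hf : th f = f * a) (hg : th g = g * b) :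
    th (f * g) = f * g * (a + b) := by
  rw [th] at hf hg ⊢
  rw [Derivation.leibniz, smul_eq_mul, smul_eq_mul]
  linear_combination g * hf + f * hg

lemma th_prod {ι : Type} (s : Finset ι) {f a : ι → PowerSeries R}
    (h : ∀ i ∈ s, th (f i) = f i * a i) : th (∏ i ∈ s, f i) = (∏ i ∈ s, f i) * ∑ i ∈ s, a i := by
  induction s using Finset.induction_on with
  | empty => simp [th]
  | insert i s hi ih =>
    rw [Finset.prod_insert hi, Finset.sum_insert hi]
    exact th_mul (h i (Finset.mem_insert_self i s))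
      (ih fun j hj => h j (Finset.mem_insert_of_mem hj))

lemma th_gs (x : R) : th (Gs x) = Gs x * (Gs x - 1) := by
  have h1 := gs_mul x
  have h2 : derivative R ((1 - C x * X) * Gs x) = 0 := by
    rw [h1, derivative_one]
  rw [Derivation.leibniz, smul_eq_mul, smul_eq_mul, map_sub, derivative_one, Derivation.leibniz,
    derivative_C, derivative_X] at h2
  simp only [smul_eq_mul, mul_zero, add_zero, mul_one, zero_sub] at h2
  rw [th]
  -- X G' = X G' A G = G * (x X G)
  have h3 : C x * X * Gs x = Gs x - 1 := by linear_combination -h1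
  linear_combination (-(X * derivative R (Gs x))) * h1 + X * Gs x * h2 + Gs x * h3

/-- the series `∑ X ^ (2 k)` -/
noncomputable def Es : PowerSeries R := PowerSeries.mk fun p => if Even p then 1 else 0

lemma es_mul : (1 - X ^ 2) * (Es : PowerSeries R) = 1 := by
  ext n
  rw [sub_mul, one_mul, map_sub, Es, coeff_mk, coeff_X_pow_mul', coeff_one, coeff_mk]
  rcases n with _ | _ | n
  · simp
  · simp
  · rw [if_pos (show 2 ≤ n + 1 + 1 by omega), if_neg (show n + 1 + 1 ≠ 0 by omega)]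
    have : Even (n + 1 + 1) ↔ Even (n + 1 + 1 - 2) := by
      rw [Nat.even_sub (by omega)]
      simp
    rw [if_congr this rfl rfl, sub_self]

lemma th_sq : th (1 - X ^ 2 : PowerSeries R) = (1 - X ^ 2) * (-2 * (Es - 1)) := by
  have h1 := es_mul (R := R)
  rw [th, map_sub, derivative_one, pow_two, Derivation.leibniz, derivative_X, smul_eq_mul,
    mul_one]
  linear_combination 2 * h1

lemma th_F (u : Rˣ) : th (F u) = F u * (-2 * (Es - 1) + (Gs (u : R) - 1) +
    (Gs ((u⁻¹ : Rˣ) : R) - 1)) := by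
  rw [F_eq']
  exact th_mul (th_mul th_sq (th_gs _)) (th_gs _)

variable {ι : Type} [Fintype ι]

lemma coeff_H (u : ι → Rˣ) {n q : ℕ} (hq : q ≤ n) :
    coeff q (∏ i, F (u i)) = ∑ c ∈ ball ι n with ∑ i, (c i).natAbs = q,
      ∏ i, ((u i ^ c i : Rˣ) : R) := by
  rw [coeff_prod, ← Finset.sum_fiberwise_of_maps_to (t := finsuppAntidiag univ q)
    (g := fun c : ι → ℤ => Finsupp.equivFunOnFinite.symm (fun i => (c i).natAbs))]
  · refine Finset.sum_congr rfl fun l hl => ?_
    rw [mem_finsuppAntidiag] at hl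
    have h1 : ∏ i, coeff (l i) (F (u i)) = ∏ i, ∑ t ∈ sg (l i), ((u i ^ t : Rˣ) : R) := by
      refine Finset.prod_congr rfl fun i _ => ?_
      rw [F, coeff_mk]
    rw [h1, Finset.prod_univ_sum]
    refine Finset.sum_congr ?_ fun _ _ => rfl
    ext c
    rw [Finset.mem_filter, Finset.mem_filter, Fintype.mem_piFinset, mem_ball]
    simp only [mem_sg]
    constructor
    · intro h
      have h2 : ∑ i, (c i).natAbs = q := by
        rw [← hl.1]
        exact Finset.sum_congr rfl fun i _ => h i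
      refine ⟨⟨h2.le.trans hq, h2⟩, ?_⟩
      ext i
      exact h i
    · rintro ⟨-, h⟩ i
      rw [← h]
      rfl
  · intro c hc
    rw [Finset.mem_filter] at hc
    rw [mem_finsuppAntidiag]
    exact ⟨hc.2, Finset.subset_univ _⟩

lemma coeff_B (u : ι → Rˣ) (n : ℕ) :
    coeff n (Gs 1 * ∏ i, F (u i)) = ∑ c ∈ ball ι n, ∏ i, ((u i ^ c i : Rˣ) : R) := by
  rw [coeff_mul, Finset.Nat.sum_antidiagonal_eq_sum_range_succ_mk,
    ← Finset.sum_fiberwise_of_maps_to (t := range (n + 1))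
    (g := fun c : ι → ℤ => ∑ i, (c i).natAbs)]
  · rw [← Finset.sum_range_reflect]
    refine Finset.sum_congr rfl fun q hq => ?_
    rw [Finset.mem_range] at hq
    have h1 : n - (n + 1 - 1 - q) = q := by omega
    dsimp only
    rw [h1, ← coeff_H u (Nat.lt_succ_iff.1 hq), Gs, coeff_mk, one_pow, one_mul]
  · intro c hc
    rw [mem_ball] at hc
    rw [Finset.mem_range]
    exact Nat.lt_succ_of_le hc

end

theorem gf : T_GF := by
  intro ι _ R _ u n
  have h1 : th (Gs 1 * ∏ i, F (u i)) = (Gs 1 * ∏ i, F (u i)) * ((Gs 1 - 1) +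
      ∑ i, (-2 * (Es - 1) + (Gs (u i : R) - 1) + (Gs (((u i)⁻¹ : Rˣ) : R) - 1))) :=
    th_mul (th_gs 1) (th_prod univ fun i _ => th_F (u i))
  have h2 := congrArg (coeff n) h1
  have h3 : coeff n (th (Gs 1 * ∏ i, F (u i))) =
      (n : R) * ∑ c ∈ ball ι n, ∏ i, ((u i ^ c i : Rˣ) : R) := by
    rw [th]
    rcases n with _ | n
    · simp
    · rw [coeff_succ_X_mul, coeff_derivative, coeff_B]
      push_cast
      ring
  rw [← h3, h2, mul_comm, coeff_mul, Finset.Nat.sum_antidiagonal_eq_sum_range_succ_mk,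
    Finset.range_eq_Ico, Finset.sum_eq_sum_Ico_succ_bot (Nat.succ_pos n)]
  have h4 : coeff 0 ((Gs 1 - 1) + ∑ i, (-2 * (Es - 1) + (Gs (u i : R) - 1) +
      (Gs (((u i)⁻¹ : Rˣ) : R) - 1))) = 0 := by
    simp [Gs, Es]
  dsimp only
  rw [h4, zero_mul, zero_add]
  refine Finset.sum_congr rfl fun k hk => ?_
  rw [coeff_B]
  congr 1
  rw [Finset.mem_Icc] at hk
  have hk0 : k ≠ 0 := by omega
  rw [map_add, map_sum]
  have h5 : ∀ i, coeff k (-2 * (Es - 1) + (Gs (u i : R) - 1) + (Gs (((u i)⁻¹ : Rˣ) : R) - 1)) =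
      (-2 * (if Even k then 1 else 0)) + (((u i ^ k : Rˣ) : R) + (((u i)⁻¹ ^ k : Rˣ) : R)) := by
    intro i
    have : (-2 : PowerSeries R) = C (-2 : R) := by
      rw [map_neg, map_ofNat]
    rw [this, map_add, map_add, coeff_C_mul, map_sub, map_sub, map_sub, Es, Gs, Gs, coeff_mk,
      coeff_mk, coeff_mk, coeff_one, if_neg hk0]
    push_cast
    ring
  rw [Finset.sum_congr rfl fun i _ => h5 i, Finset.sum_add_distrib, Finset.sum_const,
    Finset.card_univ, map_sub, Gs, coeff_mk, coeff_one, if_neg hk0, nsmul_eq_mul]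
  split_ifs
  · ring
  · ring

end Pool.Agent.H27.GW
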