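import Pool.Agent.H23.GW.Targets

/-!
Module PR of the GW project (MP_684e05_nt).
-/

set_option autoImplicit false

open Finset Polynomial
open scoped Classical

namespace Pool.Agent.H27.GW

open Pool.Agent.H23.GW

/-- the characteristic polynomial of the Cayley matrix -/
lemma charpoly_cayley (G : Type) [AddCommGroup G] [Fintype G] (T : Finset G) :
    (Matrix.of fun g h : G => if h - g ∈ T then (1 : ℤ) else 0).charpoly.map (Int.castRingHom ℂ) =
      ∏ χ : AddChar G ℂ, (X - C (V T χ)) := by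
  have hG0 : (Fintype.card G : ℂ) ≠ 0 := Nat.cast_ne_zero.2 Fintype.card_ne_zero
  obtain ⟨A, hA⟩ : ∃ A : Matrix G (AddChar G ℂ) ℂ, A = Matrix.of fun g χ => χ g * V T χ :=
    ⟨_, rfl⟩
  obtain ⟨B, hB⟩ : ∃ B : Matrix (AddChar G ℂ) G ℂ,
      B = Matrix.of fun (χ : AddChar G ℂ) (h : G) => χ (-h) / (Fintype.card G : ℂ) := ⟨_, rfl⟩
  have hAB : A * B = (Matrix.of fun g h : G => if h - g ∈ T then (1 : ℤ) else 0).map
      (Int.castRingHom ℂ) := by
    ext g h
    rw [Matrix.mul_apply, hA, hB]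
    simp only [Matrix.of_apply, Matrix.map_apply]
    have e1 : ∀ χ : AddChar G ℂ, χ g * V T χ * (χ (-h) / (Fintype.card G : ℂ)) =
        (∑ x ∈ T, χ (g + x - h)) / Fintype.card G := by
      intro χ
      rw [V, Finset.mul_sum, Finset.sum_mul, Finset.sum_div]
      refine Finset.sum_congr rfl fun x _ => ?_
      rw [sub_eq_add_neg, AddChar.map_add_eq_mul, AddChar.map_add_eq_mul]
      ring
    rw [Finset.sum_congr rfl fun χ _ => e1 χ, ← Finset.sum_div, Finset.sum_comm]
    have e2 : ∀ x ∈ T, ∑ χ : AddChar G ℂ, χ (g + x - h) =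
        if x = h - g then (Fintype.card G : ℂ) else 0 := by
      intro x _
      rw [AddChar.sum_apply_eq_ite]
      refine if_congr ?_ rfl rfl
      constructor
      · intro h1
        rw [eq_sub_iff_add_eq, add_comm, ← sub_eq_zero]
        exact h1
      · intro h1
        rw [h1]
        abel
    rw [Finset.sum_congr rfl e2, Finset.sum_ite_eq']
    split_ifs
    · simp [hG0]
    · simp
  have hBA : B * A = Matrix.diagonal fun χ : AddChar G ℂ => V T χ := by
    ext χ ψ
    rw [Matrix.mul_apply, hA, hB]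
    simp only [Matrix.of_apply]
    have e1 : ∀ h : G, χ (-h) / (Fintype.card G : ℂ) * (ψ h * V T ψ) =
        (ψ - χ) h * (V T ψ / Fintype.card G) := by
      intro h
      rw [sub_eq_add_neg, AddChar.add_apply, AddChar.neg_apply]
      ring
    rw [Finset.sum_congr rfl fun h _ => e1 h, ← Finset.sum_mul, AddChar.sum_eq_ite,
      Matrix.diagonal_apply]
    by_cases h : χ = ψ
    · rw [if_pos (by rw [h, sub_self]), if_pos h, h]
      field_simp
    · rw [if_neg (by rwa [sub_eq_zero, eq_comm]), if_neg h, zero_mul]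
  rw [← Matrix.charpoly_map, ← hAB]
  have h1 := Matrix.charpoly_mul_comm' A B
  rw [hBA, Matrix.charpoly_diagonal, AddChar.card_eq] at h1
  exact mul_left_cancel₀ (pow_ne_zero _ X_ne_zero) h1

theorem pr : T_PR := by
  intro G _ _ T
  obtain ⟨P, hP⟩ : ∃ P : ℤ[X], P =
    (Matrix.of fun g h : G => if h - g ∈ T then (1 : ℤ) else 0).charpoly := ⟨_, rfl⟩
  have h1 := charpoly_cayley G T
  rw [← hP] at h1
  rw [← Finset.prod_filter_not_mul_prod_filter univ (fun χ => V T χ ≠ 0)] at h1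
  have h2 : ∏ χ ∈ (univ : Finset (AddChar G ℂ)) with ¬ V T χ ≠ 0, (X - C (V T χ)) =
      X ^ #{χ : AddChar G ℂ | ¬ V T χ ≠ 0} := by
    rw [← Finset.prod_const]
    refine Finset.prod_congr rfl fun χ hχ => ?_
    rw [Finset.mem_filter, not_not] at hχ
    rw [hχ.2, C_0, sub_zero]
  rw [h2] at h1
  have h3 := congrArg (fun p : ℂ[X] => p.coeff #{χ : AddChar G ℂ | ¬ V T χ ≠ 0}) h1
  simp only [coeff_map, coeff_X_pow_mul', le_refl, if_true, Nat.sub_self] at h3
  rw [coeff_zero_eq_eval_zero, eval_prod] at h3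
  simp only [eval_sub, eval_X, eval_C, zero_sub] at h3
  have h4 : ∏ χ ∈ (univ : Finset (AddChar G ℂ)) with V T χ ≠ 0, ‖V T χ‖ =
      ‖∏ χ ∈ (univ : Finset (AddChar G ℂ)) with V T χ ≠ 0, (- V T χ)‖ := by
    rw [norm_prod]
    exact Finset.prod_congr rfl fun χ _ => (norm_neg _).symm
  rw [h4, ← h3]
  have h5 : ∏ χ ∈ (univ : Finset (AddChar G ℂ)) with V T χ ≠ 0, (- V T χ) ≠ 0 := by
    rw [Finset.prod_ne_zero_iff]
    intro χ hχ
    rw [Finset.mem_filter] at hχ
    exact neg_ne_zero.2 hχ.2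
  rw [← h3] at h5
  have h6 : P.coeff #{χ : AddChar G ℂ | ¬ V T χ ≠ 0} ≠ 0 := by
    intro h
    apply h5
    rw [h]
    simp
  rw [Int.coe_castRingHom, Complex.norm_intCast]
  exact_mod_cast Int.one_le_abs h6

end Pool.Agent.H27.GW
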