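import Pool.Agent.H27.GW.GF

/-!
Module TI of the GW project (MP_684e05_nt).
-/

set_option autoImplicit false

open Finset
open scoped Classical

namespace Pool.Agent.H27.GW

open Pool.Agent.H23.GW

lemma abs_le_iff_mem_ball {ι : Type} [Fintype ι] {n : ℕ} {c : ι → ℤ} :
    ∑ i, |c i| ≤ (n : ℤ) ↔ c ∈ ball ι n := by
  have h0 : ∑ i, |c i| = ((∑ i, (c i).natAbs : ℕ) : ℤ) := by
    rw [Nat.cast_sum]
    exact Finset.sum_congr rfl fun i _ => by simp
  rw [mem_ball, h0, Nat.cast_le]

/-! ### the vectors of the tile -/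

section vec

variable {ι : Type} [Fintype ι]

/-- signs -/
def sgn (b : Bool) : ℤ := if b then 1 else -1

lemma sgn_ne (b : Bool) : sgn b ≠ 0 := by
  cases b <;> decide

lemma sgn_not (b : Bool) : sgn (!b) = - sgn b := by
  cases b <;> decide

/-- the vectors of norm at most one -/
noncomputable def vec : Option (ι × Bool) → ι → ℤ
  | none, _ => 0
  | some (a, b), c => if c = a then sgn b else 0

lemma vec_none (c : ι) : vec (none : Option (ι × Bool)) c = 0 := rfl

lemma vec_some (a : ι) (b : Bool) (c : ι) : vec (some (a, b)) c = if c = a then sgn b else 0 := rfl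

lemma vec_values (w : Option (ι × Bool)) (a : ι) (b : Bool) :
    (w = some (a, b) ∧ vec w a = sgn b) ∨ (w = some (a, !b) ∧ vec w a = - sgn b) ∨
      (w ≠ some (a, b) ∧ vec w a = 0) := by
  rcases w with _ | ⟨a', b'⟩
  · right; right
    exact ⟨by simp, rfl⟩
  · by_cases h : a' = a
    · subst h
      by_cases h' : b' = b
      · subst h'
        left
        exact ⟨rfl, by rw [vec_some, if_pos rfl]⟩
      · have h2 : b' = !b := by
          cases b' <;> cases b <;> simp_all
        subst h2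
        right; left
        exact ⟨rfl, by rw [vec_some, if_pos rfl, sgn_not]⟩
    · right; right
      refine ⟨fun h2 => h (by simpa using congrArg (Option.map Prod.fst) h2), ?_⟩
      rw [vec_some, if_neg (Ne.symm h)]

lemma vec_inj : Function.Injective (vec : Option (ι × Bool) → ι → ℤ) := by
  intro x y h
  rcases x with _ | ⟨a, b⟩
  · rcases y with _ | ⟨a, b⟩
    · rfl
    · have h1 := congrFun h a
      rw [vec_none, vec_some, if_pos rfl] at h1
      exact absurd h1.symm (sgn_ne b)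
  · have h1 := congrFun h a
    rw [vec_some, if_pos rfl] at h1
    rcases vec_values y a b with h2 | h2 | h2
    · exact h2.1.symm
    · rw [h2.2] at h1
      have := sgn_ne b
      omega
    · rw [h2.2] at h1
      exact absurd h1 (sgn_ne b)

lemma vec_norm (w : Option (ι × Bool)) : ∑ i, (vec w i).natAbs ≤ 1 := by
  rcases w with _ | ⟨a, b⟩
  · simp [vec_none]
  · rw [Finset.sum_eq_single a]
    · rw [vec_some, if_pos rfl]
      cases b <;> decide
    · intro c _ hc
      rw [vec_some, if_neg hc]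
      rfl
    · intro h
      exact absurd (Finset.mem_univ a) h

lemma vec_key {a : ι} {b : Bool} {y x₀ y₀ : Option (ι × Bool)}
    (h : ∀ c, vec (some (a, b)) c + vec y c = vec x₀ c + vec y₀ c)
    (h0 : ∃ c, vec (some (a, b)) c + vec y c ≠ 0) : some (a, b) = x₀ ∨ some (a, b) = y₀ := by
  by_contra hne
  rw [not_or] at hne
  have h1 := h a
  rw [vec_some, if_pos rfl] at h1
  have hs := sgn_ne b
  have hy : y = some (a, !b) := by
    rcases vec_values y a b with h2 | h2 | h2
    · rw [h2.2] at h1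
      rcases vec_values x₀ a b with h3 | h3 | h3
      · exact absurd h3.1.symm hne.1
      · rcases vec_values y₀ a b with h4 | h4 | h4
        · exact absurd h4.1.symm hne.2
        · rw [h3.2, h4.2] at h1
          omega
        · rw [h3.2, h4.2] at h1
          omega
      · rcases vec_values y₀ a b with h4 | h4 | h4
        · exact absurd h4.1.symm hne.2
        · rw [h3.2, h4.2] at h1
          omega
        · rw [h3.2, h4.2] at h1
          omega
    · exact h2.1
    · rw [h2.2] at h1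
      rcases vec_values x₀ a b with h3 | h3 | h3
      · exact absurd h3.1.symm hne.1
      · rcases vec_values y₀ a b with h4 | h4 | h4
        · exact absurd h4.1.symm hne.2
        · rw [h3.2, h4.2] at h1
          omega
        · rw [h3.2, h4.2] at h1
          omega
      · rcases vec_values y₀ a b with h4 | h4 | h4
        · exact absurd h4.1.symm hne.2
        · rw [h3.2, h4.2] at h1
          omega
        · rw [h3.2, h4.2] at h1
          omega
  obtain ⟨c, hc⟩ := h0
  apply hc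
  rw [hy, vec_some, vec_some]
  split_ifs
  · rw [sgn_not]
    omega
  · rfl

lemma vec_pairs {x y x₀ y₀ : Option (ι × Bool)}
    (h : ∀ c, vec x c + vec y c = vec x₀ c + vec y₀ c) (h0 : ∃ c, vec x c + vec y c ≠ 0) :
    (x = x₀ ∧ y = y₀) ∨ (x = y₀ ∧ y = x₀) := by
  have hcan1 : x = x₀ → y = y₀ := by
    rintro rfl
    exact vec_inj (funext fun c => by have := h c; omega)
  have hcan2 : x = y₀ → y = x₀ := by
    rintro rfl
    exact vec_inj (funext fun c => by have := h c; omega)
  rcases hx : x with _ | ⟨a, b⟩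
  · rcases hx₀ : x₀ with _ | ⟨a, b⟩
    · left
      exact ⟨rfl, hcan1 (by rw [hx, hx₀])⟩
    · have h1 := vec_key (a := a) (b := b) (y := y₀) (x₀ := x) (y₀ := y) (by
        intro c
        rw [← hx₀]
        exact (h c).symm) (by
        obtain ⟨c, hc⟩ := h0
        refine ⟨c, ?_⟩
        rw [← hx₀, ← h c]
        exact hc)
      rcases h1 with h1 | h1
      · rw [hx] at h1
        exact absurd h1 (by simp)
      · right
        rw [← hx₀] at h1
        have : x = y₀ := vec_inj (funext fun c => by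
          have := h c
          rw [h1] at this
          omega)
        rw [← hx, ← hx₀]
        exact ⟨this, h1.symm⟩
  · have h1 := vec_key (a := a) (b := b) (y := y) (x₀ := x₀) (y₀ := y₀) (by
        intro c
        rw [← hx]
        exact h c) (by
        rw [← hx]
        exact h0)
    rw [← hx] at h1 ⊢
    rcases h1 with h1 | h1
    · exact Or.inl ⟨h1, hcan1 h1⟩
    · exact Or.inr ⟨h1, hcan2 h1⟩

end vec

/-! ### the identity -/

lemma P3 (hGF : T_GF) {ι : Type} [Fintype ι] {R : Type} [CommRing R] (u : ι → Rˣ)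
    {W : ℕ → R} (hW : ∀ k, 1 ≤ k → W k = 1 + ∑ i, (((u i ^ k : Rˣ) : R) +
      (((u i)⁻¹ ^ k : Rˣ) : R))) :
    6 * ∑ c ∈ ball ι 3, ∏ i, ((u i ^ c i : Rˣ) : R) =
      W 1 ^ 3 + 3 * W 1 * W 2 + 2 * W 3 - 6 * (Fintype.card ι : R) * W 1 := by
  have h1 := hGF ι R u 1
  have h2 := hGF ι R u 2
  have h3 := hGF ι R u 3
  have e1 : Finset.Icc 1 1 = {1} := by decide
  have e2 : Finset.Icc 1 2 = {1, 2} := by decide
  have e3 : Finset.Icc 1 3 = {1, 2, 3} := by decide
  have b0 : ∑ c ∈ ball ι 0, ∏ i, ((u i ^ c i : Rˣ) : R) = 1 := by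
    have : ball ι 0 = {0} := by
      ext c
      rw [mem_ball, Finset.mem_singleton, Nat.le_zero, Finset.sum_eq_zero_iff]
      constructor
      · intro h
        funext i
        exact Int.natAbs_eq_zero.1 (h i (Finset.mem_univ i))
      · rintro rfl i _
        rfl
    rw [this, Finset.sum_singleton]
    simp
  rw [e1, Finset.sum_singleton, ← hW 1 le_rfl] at h1
  rw [e2, Finset.sum_insert (by decide), Finset.sum_singleton, ← hW 1 le_rfl,
    ← hW 2 (by norm_num)] at h2
  rw [e3, Finset.sum_insert (by decide), Finset.sum_insert (by decide), Finset.sum_singleton,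
    ← hW 1 le_rfl, ← hW 2 (by norm_num), ← hW 3 (by norm_num)] at h3
  rw [if_neg (by decide)] at h1
  rw [if_neg (by decide), if_pos (by decide)] at h2
  rw [if_neg (by decide), if_pos (by decide), if_neg (by decide)] at h3
  simp only [Nat.sub_self, b0, Nat.add_one_sub_one, Nat.reduceSub] at h1 h2 h3
  push_cast at h1 h2 h3
  linear_combination 2 * h3 + W 1 * h2 + (W 1 ^ 2 + 2 * (W 2 - 2 * (Fintype.card ι : R))) * h1

/-! ### the tile -/

section tile

variable {G : Type} [AddCommGroup G] [Fintype G] {A : Finset G}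

/-- evaluation of integer vectors -/
noncomputable def ev (A : Finset G) (c : A → ℤ) : G := ∑ a, c a • (a : G)

lemma ev_add (c d : A → ℤ) : ev A (c + d) = ev A c + ev A d := by
  rw [ev, ev, ev, ← Finset.sum_add_distrib]
  exact Finset.sum_congr rfl fun a _ => by rw [Pi.add_apply, add_smul]

lemma ev_inj (hA : PerfectSpanning A 3) {c d : A → ℤ} (hc : c ∈ ball A 3) (hd : d ∈ ball A 3)
    (h : ev A c = ev A d) : c = d := by
  rw [← abs_le_iff_mem_ball] at hc hd
  exact (hA (ev A d)).unique ⟨hc, h⟩ ⟨hd, rfl⟩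

lemma ev_surj (hA : PerfectSpanning A 3) (g : G) : ∃ c ∈ ball A 3, ev A c = g := by
  obtain ⟨c, ⟨hc, h⟩, -⟩ := hA g
  exact ⟨c, abs_le_iff_mem_ball.1 hc, h⟩

lemma sum_ev (hA : PerfectSpanning A 3) {R : Type} [AddCommMonoid R] (f : G → R) :
    ∑ c ∈ ball A 3, f (ev A c) = ∑ g, f g := by
  refine Finset.sum_bij (fun c _ => ev A c) (fun _ _ => Finset.mem_univ _)
    (fun c hc d hd h => ev_inj hA hc hd h) (fun g _ => ?_) (fun _ _ => rfl)
  obtain ⟨c, hc, h⟩ := ev_surj hA g
  exact ⟨c, hc, h⟩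

lemma ev_vec_none : ev A (vec none) = 0 := by
  rw [ev]
  exact Finset.sum_eq_zero fun a _ => by rw [vec_none, zero_smul]

lemma ev_vec_some (a : A) (b : Bool) : ev A (vec (some (a, b))) = sgn b • (a : G) := by
  rw [ev, Finset.sum_eq_single a]
  · rw [vec_some, if_pos rfl]
  · intro c _ hc
    rw [vec_some, if_neg hc, zero_smul]
  · intro h
    exact absurd (Finset.mem_univ a) h

lemma vec_mem (w : Option (A × Bool)) : vec w ∈ ball A 3 := by
  rw [mem_ball]
  exact (vec_norm w).trans (by norm_num)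

lemma vec_add_mem (w w' : Option (A × Bool)) : vec w + vec w' ∈ ball A 3 := by
  rw [mem_ball]
  have h1 : ∑ i, ((vec w + vec w') i).natAbs ≤ ∑ i, ((vec w i).natAbs + (vec w' i).natAbs) :=
    Finset.sum_le_sum fun i _ => Int.natAbs_add_le _ _
  rw [Finset.sum_add_distrib] at h1
  have := vec_norm w
  have := vec_norm w'
  omega

/-- the tile -/
noncomputable def tile (A : Finset G) : Finset G :=
  Finset.univ.image fun w : Option (A × Bool) => ev A (vec w)

lemma tile_inj (hA : PerfectSpanning A 3) :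
    Function.Injective fun w : Option (A × Bool) => ev A (vec w) := fun w w' h =>
  vec_inj (ev_inj hA (vec_mem w) (vec_mem w') h)

lemma sum_tile (hA : PerfectSpanning A 3) {R : Type} [AddCommMonoid R] (f : G → R) :
    ∑ x ∈ tile A, f x = f 0 + ∑ a : A, (f a + f (-a)) := by
  rw [tile, Finset.sum_image (fun w _ w' _ h => tile_inj hA h), Fintype.sum_option,
    ev_vec_none, Fintype.sum_prod_type]
  congr 1
  refine Finset.sum_congr rfl fun a _ => ?_
  rw [Fintype.sum_bool, ev_vec_some, ev_vec_some]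
  simp [sgn]

omit [Fintype G] in
lemma addChar_sum {ι R : Type} [CommMonoid R] (ψ : AddChar G R) (s : Finset ι) (f : ι → G) :
    ψ (∑ i ∈ s, f i) = ∏ i ∈ s, ψ (f i) := by
  induction s using Finset.induction_on with
  | empty => simp
  | insert i s hi ih =>
    rw [Finset.sum_insert hi, Finset.prod_insert hi, AddChar.map_add_eq_mul, ih]

/-- the identity for characters with values in any commutative ring -/
lemma main_identity (hGF : T_GF) (hA : PerfectSpanning A 3) {R : Type} [CommRing R]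
    (ψ : AddChar G R) :
    6 * ∑ g, ψ g = (∑ x ∈ tile A, ψ x) ^ 3 + 3 * (∑ x ∈ tile A, ψ x) *
      (∑ x ∈ tile A, ψ x ^ 2) + 2 * (∑ x ∈ tile A, ψ x ^ 3) -
        6 * (#A : R) * ∑ x ∈ tile A, ψ x := by
  obtain ⟨u, hu⟩ : ∃ u : G → Rˣ, ∀ g, ((u g : Rˣ) : R) = ψ g ∧ (((u g)⁻¹ : Rˣ) : R) = ψ (-g) := by
    refine ⟨fun g => ⟨ψ g, ψ (-g), ?_, ?_⟩, fun g => ⟨rfl, rfl⟩⟩
    · rw [← AddChar.map_add_eq_mul, add_neg_cancel, AddChar.map_zero_eq_one]
    · rw [← AddChar.map_add_eq_mul, neg_add_cancel, AddChar.map_zero_eq_one]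
  have hu2 : ∀ (g : G) (k : ℤ), ((u g ^ k : Rˣ) : R) = ψ (k • g) := by
    intro g k
    obtain ⟨n, rfl | rfl⟩ := k.eq_nat_or_neg
    · rw [zpow_natCast, Units.val_pow_eq_pow_val, (hu g).1, natCast_zsmul,
        AddChar.map_nsmul_eq_pow]
    · rw [zpow_neg, zpow_natCast, ← inv_pow, Units.val_pow_eq_pow_val, (hu g).2, neg_smul,
        natCast_zsmul, ← smul_neg, AddChar.map_nsmul_eq_pow]
  have h1 := P3 hGF (fun a : A => u a) (W := fun k => ∑ x ∈ tile A, ψ x ^ k) (by
    intro k _
    rw [sum_tile hA, AddChar.map_zero_eq_one, one_pow]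
    congr 1
    refine Finset.sum_congr rfl fun a _ => ?_
    rw [Units.val_pow_eq_pow_val, Units.val_pow_eq_pow_val, (hu a).1, (hu a).2])
  have h2 : ∑ c ∈ ball A 3, ∏ a : A, ((u a ^ c a : Rˣ) : R) = ∑ g, ψ g := by
    rw [← sum_ev hA]
    refine Finset.sum_congr rfl fun c _ => ?_
    rw [ev, addChar_sum]
    exact Finset.prod_congr rfl fun a _ => hu2 a (c a)
  rw [h2] at h1
  simp only [pow_one] at h1
  rw [h1, Fintype.card_coe]

/-! ### the group ring -/

/-- the tautological character of the group ring -/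
noncomputable def taut (G : Type) [AddCommGroup G] : AddChar G (AddMonoidAlgebra ℤ G) where
  toFun g := AddMonoidAlgebra.single g 1
  map_zero_eq_one' := rfl
  map_add_eq_mul' x y := by
    rw [AddMonoidAlgebra.single_mul_single, one_mul]

omit [Fintype G] in
lemma taut_apply (g : G) : taut G g = AddMonoidAlgebra.single g 1 := rfl

omit [Fintype G] in
lemma coeff_taut (g h : G) : (taut G g).coeff h = if g = h then 1 else 0 := by
  rw [taut_apply, AddMonoidAlgebra.coeff_single, Finsupp.single_apply]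

lemma coeff_conv (x y : AddMonoidAlgebra ℤ G) (d : G) :
    (x * y).coeff d = ∑ g, x.coeff (d - g) * y.coeff g := by
  have hy : y = ∑ g, AddMonoidAlgebra.single g (y.coeff g) := by
    apply AddMonoidAlgebra.coeff_injective
    ext h
    rw [AddMonoidAlgebra.coeff_sum, Finsupp.finsetSum_apply]
    simp [AddMonoidAlgebra.coeff_single, Finsupp.single_apply]
  conv_lhs => rw [hy]
  rw [Finset.mul_sum, AddMonoidAlgebra.coeff_sum, Finsupp.finsetSum_apply]
  refine Finset.sum_congr rfl fun g _ => ?_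
  rw [AddMonoidAlgebra.coeff_mul_single_apply, sub_eq_add_neg]

/-- all coefficients are nonnegative -/
def NN (x : AddMonoidAlgebra ℤ G) : Prop := ∀ g, 0 ≤ x.coeff g

lemma NN.mul {x y : AddMonoidAlgebra ℤ G} (hx : NN x) (hy : NN y) : NN (x * y) := by
  intro d
  rw [coeff_conv]
  exact Finset.sum_nonneg fun g _ => mul_nonneg (hx _) (hy _)

omit [Fintype G] in
lemma NN.taut_pow (T : Finset G) (k : ℕ) : NN (∑ x ∈ T, taut G x ^ k) := by
  intro g
  rw [AddMonoidAlgebra.coeff_sum, Finsupp.finsetSum_apply]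
  refine Finset.sum_nonneg fun x _ => ?_
  rw [← AddChar.map_nsmul_eq_pow, coeff_taut]
  split_ifs <;> norm_num

omit [Fintype G] in
lemma coeff_sq (T : Finset G) (d : G) :
    ((∑ x ∈ T, taut G x) * (∑ x ∈ T, taut G x)).coeff d = r2 T d := by
  rw [Finset.sum_mul_sum, AddMonoidAlgebra.coeff_sum, Finsupp.finsetSum_apply, r2,
    Finset.card_filter, Finset.sum_product, Nat.cast_sum]
  refine Finset.sum_congr rfl fun x _ => ?_
  rw [AddMonoidAlgebra.coeff_sum, Finsupp.finsetSum_apply, Nat.cast_sum]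
  refine Finset.sum_congr rfl fun y _ => ?_
  rw [← AddChar.map_add_eq_mul, coeff_taut]
  simp

end tile

theorem ti (hGF : T_GF) : T_TI := by
  intro G _ _ A hA
  obtain ⟨T, hT⟩ : ∃ T, T = tile A := ⟨_, rfl⟩
  have hsum : ∀ {R : Type} [AddCommMonoid R] (f : G → R),
      ∑ x ∈ T, f x = f 0 + ∑ a : A, (f a + f (-a)) := by
    intro R _ f
    rw [hT]
    exact sum_tile hA f
  have hneg : ∀ x ∈ T, -x ∈ T := by
    intro x hx
    rw [hT, tile, Finset.mem_image] at hx ⊢
    obtain ⟨w, -, rfl⟩ := hx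
    rcases w with _ | ⟨a, b⟩
    · exact ⟨none, Finset.mem_univ _, by rw [ev_vec_none, neg_zero]⟩
    · refine ⟨some (a, !b), Finset.mem_univ _, ?_⟩
      rw [ev_vec_some, ev_vec_some, sgn_not, neg_smul]
  have hcard : #T = 2 * #A + 1 := by
    have := hsum fun _ => (1 : ℕ)
    rw [Finset.sum_const, smul_eq_mul, mul_one, Finset.sum_const, Finset.card_univ,
      Fintype.card_coe, smul_eq_mul] at this
    omega
  have hr2 : ∀ d, d ≠ 0 → r2 T d ≤ 2 := by
    intro d hd
    rw [r2]
    rcases Finset.eq_empty_or_nonempty ({q ∈ T ×ˢ T | q.1 + q.2 = d}) with h | ⟨q₀, hq₀⟩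
    · rw [h]
      simp
    · refine (Finset.card_le_card (t := {q₀, (q₀.2, q₀.1)}) ?_).trans Finset.card_le_two
      intro q hq
      rw [Finset.mem_filter, Finset.mem_product, hT, tile, Finset.mem_image,
        Finset.mem_image] at hq hq₀
      obtain ⟨⟨⟨x, -, hx⟩, ⟨y, -, hy⟩⟩, h1⟩ := hq
      obtain ⟨⟨⟨x₀, -, hx₀⟩, ⟨y₀, -, hy₀⟩⟩, h2⟩ := hq₀
      have h3 : vec x + vec y = vec x₀ + vec y₀ := by
        apply ev_inj hA (vec_add_mem x y) (vec_add_mem x₀ y₀)
        rw [ev_add, ev_add, hx, hy, hx₀, hy₀, h1, h2]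
      have h4 : ∃ c, vec x c + vec y c ≠ 0 := by
        by_contra h
        push Not at h
        have h5 : vec x + vec y = vec (none : Option (A × Bool)) := by
          funext c
          rw [Pi.add_apply, h c, vec_none]
        have h6 : ev A (vec x + vec y) = 0 := by rw [h5, ev_vec_none]
        rw [ev_add, hx, hy, h1] at h6
        exact hd h6
      rw [Finset.mem_insert, Finset.mem_singleton]
      rcases vec_pairs (fun c => congrFun h3 c) h4 with ⟨rfl, rfl⟩ | ⟨rfl, rfl⟩
      · left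
        exact Prod.ext (hx.symm.trans hx₀) (hy.symm.trans hy₀)
      · right
        exact Prod.ext (hx.symm.trans hy₀) (hy.symm.trans hx₀)
  have hid := fun {R : Type} [CommRing R] (ψ : AddChar G R) => main_identity hGF hA ψ
  rw [← hT] at hid
  refine ⟨T, ⟨?_, hneg, hcard, ?_, hr2, ?_, ?_⟩⟩
  · rw [hT, tile, Finset.mem_image]
    exact ⟨none, Finset.mem_univ _, ev_vec_none⟩
  · have h1 := hid (R := ℤ) 1
    simp only [AddChar.one_apply, one_pow, Finset.sum_const, Finset.card_univ, nsmul_eq_mul,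
      mul_one, hcard] at h1
    zify
    push_cast at h1
    refine mul_left_cancel₀ (two_ne_zero (α := ℤ)) ?_
    linear_combination h1
  · intro d hd
    have h1 := hid (taut G)
    obtain ⟨τ₁, hτ₁⟩ : ∃ τ, τ = ∑ x ∈ T, taut G x := ⟨_, rfl⟩
    obtain ⟨τ₂, hτ₂⟩ : ∃ τ, τ = ∑ x ∈ T, taut G x ^ 2 := ⟨_, rfl⟩
    obtain ⟨τ₃, hτ₃⟩ : ∃ τ, τ = ∑ x ∈ T, taut G x ^ 3 := ⟨_, rfl⟩
    obtain ⟨Γ, hΓ⟩ : ∃ Γ, Γ = ∑ g, taut G g := ⟨_, rfl⟩
    rw [← hτ₁, ← hτ₂, ← hτ₃, ← hΓ] at h1
    have n1 : NN τ₁ := by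
      have := NN.taut_pow T 1
      simpa only [pow_one, ← hτ₁] using this
    have n2 : NN τ₂ := hτ₂ ▸ NN.taut_pow T 2
    have n3 : NN τ₃ := hτ₃ ▸ NN.taut_pow T 3
    have hΓτ : (Γ * τ₁).coeff d = 2 * #A + 1 := by
      have e1 : ∀ g, Γ.coeff g = 1 := by
        intro g
        rw [hΓ, AddMonoidAlgebra.coeff_sum, Finsupp.finsetSum_apply]
        simp [coeff_taut]
      rw [coeff_conv]
      simp only [e1, one_mul]
      rw [hτ₁]
      simp only [AddMonoidAlgebra.coeff_sum, Finsupp.finsetSum_apply, coeff_taut]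
      rw [Finset.sum_comm]
      simp [hcard]
    have h2 : τ₁ * τ₁ * (τ₁ * τ₁) = 6 * (Γ * τ₁) + 6 * (#A : AddMonoidAlgebra ℤ G) * (τ₁ * τ₁) -
        3 * (τ₁ * τ₁ * τ₂) - 2 * (τ₁ * τ₃) := by
      linear_combination (-τ₁) * h1
    have h3 : (τ₁ * τ₁ * (τ₁ * τ₁)).coeff d = 6 * (Γ * τ₁).coeff d + 6 * #A * (τ₁ * τ₁).coeff d -
        3 * (τ₁ * τ₁ * τ₂).coeff d - 2 * (τ₁ * τ₃).coeff d := by
      have e6 : (6 : AddMonoidAlgebra ℤ G) * (Γ * τ₁) = (6 : ℤ) • (Γ * τ₁) := by
        rw [zsmul_eq_mul]; push_cast; rfl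
      have e6' : (6 : AddMonoidAlgebra ℤ G) * (#A : AddMonoidAlgebra ℤ G) * (τ₁ * τ₁) =
          (6 * #A : ℤ) • (τ₁ * τ₁) := by
        rw [zsmul_eq_mul]; push_cast; rfl
      have e3 : (3 : AddMonoidAlgebra ℤ G) * (τ₁ * τ₁ * τ₂) = (3 : ℤ) • (τ₁ * τ₁ * τ₂) := by
        rw [zsmul_eq_mul]; push_cast; rfl
      have e2 : (2 : AddMonoidAlgebra ℤ G) * (τ₁ * τ₃) = (2 : ℤ) • (τ₁ * τ₃) := by
        rw [zsmul_eq_mul]; push_cast; rfl
      rw [h2, e6, e6', e3, e2]
      simp only [AddMonoidAlgebra.coeff_sub, AddMonoidAlgebra.coeff_add,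
        AddMonoidAlgebra.coeff_smul, Finsupp.coe_sub, Finsupp.coe_add, Finsupp.coe_smul,
        Pi.sub_apply, Pi.add_apply, Pi.smul_apply, smul_eq_mul]
    have h4 : (τ₁ * τ₁).coeff d = r2 T d := by
      rw [hτ₁, coeff_sq]
    have h5 := (n1.mul n1).mul n2 d
    have h6 := n1.mul n3 d
    have h7 : (τ₁ * τ₁ * (τ₁ * τ₁)).coeff d = ∑ g, (r2 T g : ℤ) * r2 T (g + d) := by
      rw [coeff_conv]
      have hr : ∀ g, r2 T (-g) = r2 T g := by
        intro g
        rw [r2, r2]
        refine Finset.card_bij (fun q _ => (-q.1, -q.2)) ?_ ?_ ?_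
        · intro q hq
          rw [Finset.mem_filter, Finset.mem_product] at hq ⊢
          refine ⟨⟨hneg _ hq.1.1, hneg _ hq.1.2⟩, ?_⟩
          rw [← neg_add, hq.2, neg_neg]
        · intro q _ q' _ h
          rw [Prod.mk.injEq, neg_inj, neg_inj] at h
          exact Prod.ext h.1 h.2
        · intro q hq
          rw [Finset.mem_filter, Finset.mem_product] at hq
          refine ⟨(-q.1, -q.2), ?_, by simp⟩
          rw [Finset.mem_filter, Finset.mem_product]
          refine ⟨⟨hneg _ hq.1.1, hneg _ hq.1.2⟩, ?_⟩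
          rw [← neg_add, hq.2]
      rw [← Equiv.sum_comp (Equiv.neg G)]
      refine Finset.sum_congr rfl fun g _ => ?_
      rw [hτ₁, coeff_sq, coeff_sq, Equiv.neg_apply, hr, sub_neg_eq_add, add_comm d g, mul_comm]
    have h8 := hr2 d hd
    rw [h3, hΓτ, h4] at h7
    have h9 : ((∑ g, r2 T g * r2 T (g + d) : ℕ) : ℤ) ≤ ((24 * #A + 6 : ℕ) : ℤ) := by
      push_cast
      rw [← h7]
      have h10 : (#A : ℤ) * (r2 T d : ℤ) ≤ #A * 2 :=
        mul_le_mul_of_nonneg_left (by exact_mod_cast h8) (by positivity)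
      nlinarith
    exact_mod_cast h9
  · intro χ hχ
    have h1 := hid χ
    rw [AddChar.sum_eq_ite, if_neg hχ] at h1
    simp only [V, AddChar.nsmul_apply]
    linear_combination -h1

end Pool.Agent.H27.GW
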