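import Pool.Agent.H23.GW.Targets

/-!
Module VZ of the GW project (MP_684e05_nt).
-/

set_option autoImplicit false

open Finset Polynomial

namespace Pool.Agent.H27.GW

open Pool.Agent.H23.GW

theorem vz : T_VZ := by
  intro G _ _ T χ t ht h0
  obtain ⟨n, hn⟩ : ∃ n, n = Fintype.card G := ⟨_, rfl⟩
  rw [← hn] at ht
  have hn0 : n ≠ 0 := by
    rw [hn]
    exact Fintype.card_ne_zero
  obtain ⟨ζ, hζ⟩ : ∃ ζ : ℂ, IsPrimitiveRoot ζ n := ⟨_, Complex.isPrimitiveRoot_exp n hn0⟩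
  have hk : ∀ x : G, ∃ k : ℕ, ζ ^ k = χ x := by
    intro x
    have : NeZero n := ⟨hn0⟩
    obtain ⟨k, -, hk⟩ := hζ.eq_pow_of_pow_eq_one (ξ := χ x) (by
      rw [← AddChar.map_nsmul_eq_pow, hn, card_nsmul_eq_zero, AddChar.map_zero_eq_one])
    exact ⟨k, hk⟩
  choose k hk using hk
  obtain ⟨f, hf⟩ : ∃ f : ℤ[X], f = ∑ x ∈ T, X ^ k x := ⟨_, rfl⟩
  have h1 : aeval ζ f = 0 := by
    rw [hf, map_sum, ← h0]
    exact Finset.sum_congr rfl fun x _ => by rw [map_pow, aeval_X, hk]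
  have h2 : minpoly ℤ (ζ ^ t) ∣ f := by
    rw [← hζ.minpoly_eq_pow_coprime ht]
    exact minpoly.isIntegrallyClosed_dvd (hζ.isIntegral (Nat.pos_of_ne_zero hn0)) h1
  obtain ⟨g, hg⟩ := h2
  have h3 : aeval (ζ ^ t) f = 0 := by
    rw [hg, map_mul, minpoly.aeval, zero_mul]
  rw [← h3, hf, map_sum]
  refine Finset.sum_congr rfl fun x _ => ?_
  rw [map_pow, aeval_X, AddChar.nsmul_apply, ← hk x]
  ring

end Pool.Agent.H27.GW
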